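import Pool.Agent.H27.QF

namespace Pool.Agent.Results.MP_781342_nt.Cube
open Finset Polynomial Pool.Agent.H27.QC Pool.Agent.H27.QC.Loc Pool.Agent.H27.QD Pool.Agent.H27.QF

/-- the shifted factorial `(a; b)_k` -/
def poch {K : Type*} [Field K] (a b : K) (k : ℕ) : K := ∏ i ∈ range k, (1 - a * b ^ i)

/-- the central Gaussian binomial coefficient -/
def cb {K : Type*} [Field K] (q : K) (k : ℕ) : K := poch q q (2 * k) / poch q q k ^ 2

/-- `L_n(q)` -/
def Ls {K : Type*} [Field K] (q : K) (n : ℕ) : K := ∑ k ∈ range n, cb q k * (q ^ k / poch (-q) q k)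

/-- `R_n(q)` -/
def Rs {K : Type*} [Field K] (q : K) (n : ℕ) : K :=
  ∑ k ∈ range n, q ^ (2 * k) * poch q (q ^ 2) k ^ 2 / poch (q ^ 2) (q ^ 2) k ^ 2

/-- congruence modulo `Φ_n(q) ^ 3`, read in lowest terms -/
def Cong (n : ℕ) (A B : RatFunc ℚ) : Prop :=
  cyclotomic n ℚ ^ 3 ∣ (A - B).num ∧ IsCoprime (A - B).denom (cyclotomic n ℚ ^ 3)

variable {K : Type*} [Field K]

theorem poch_succ (a b : K) (k : ℕ) : poch a b (k + 1) = poch a b k * (1 - a * b ^ k) :=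
  prod_range_succ _ _
theorem poch_add (a b : K) (k j : ℕ) : poch a b (k + j) = poch a b k * poch (a * b ^ k) b j := by
  rw [poch, prod_range_add, poch, poch]
  congr 1
  exact prod_congr rfl fun i _ => by ring
theorem poch_succ' (a b : K) (k : ℕ) : poch a b (k + 1) = (1 - a) * poch (a * b) b k := by
  rw [add_comm, poch_add]; simp [poch]

def RR (q x : K) (N : ℕ) : K := ∑ k ∈ range (N + 1),
  poch x (q ^ 2) k * poch (q ^ 2 / x) (q ^ 2) k * (q ^ 2) ^ k / poch (q ^ 2) (q ^ 2) k ^ 2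

def BB (q x : K) (N : ℕ) : K := (1 + x⁻¹) * poch (x * q ^ 2) (q ^ 2) N * poch (q ^ 2 / x) (q ^ 2) N
  / poch (q ^ 2) (q ^ 2) N ^ 2

section
variable {q : K} (hq : q ≠ 0) (ne : ∀ j, 1 - q ^ (j + 1) ≠ 0)
include ne

theorem ne2 (j : ℕ) : 1 - q ^ 2 * (q ^ 2) ^ j ≠ 0 := by
  rw [show q ^ 2 * (q ^ 2) ^ j = q ^ (2 * j + 1 + 1) by ring]; exact ne _
theorem PP (k : ℕ) : poch (q ^ 2) (q ^ 2) k ≠ 0 := prod_ne_zero_iff.mpr fun i _ => ne2 ne i

theorem cb_eq (k : ℕ) : cb q k * (q ^ k / poch (-q) q k) = poch q (q ^ 2) k / poch q q k * q ^ k := by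
  have h1 : ∀ k, poch q q (2 * k) = poch q (q ^ 2) k * (poch q q k * poch (-q) q k) := by
    intro k
    induction k with
    | zero => simp [poch]
    | succ k ih =>
      rw [show 2 * (k + 1) = 2 * k + 1 + 1 by ring, poch_succ, poch_succ, ih, poch_succ, poch_succ,
        poch_succ]
      ring
  have h2 : poch q q (2 * k) ≠ 0 := prod_ne_zero_iff.mpr fun i _ => by
    rw [← pow_succ']; exact ne i
  rw [cb, h1] at *
  simp only [mul_ne_zero_iff] at h2
  have := h2.2.1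
  have := h2.2.2
  field_simp

theorem split (N : ℕ) (f : ℕ → K) : ∑ x ∈ antidiagonal (N + 1), f x.1 * (1 - (q ^ 2) ^ x.2)
    / (poch (q ^ 2) (q ^ 2) x.1 * poch (q ^ 2) (q ^ 2) x.2) = ∑ x ∈ antidiagonal N,
      f x.1 / (poch (q ^ 2) (q ^ 2) x.1 * poch (q ^ 2) (q ^ 2) x.2) := by
  rw [Nat.sum_antidiagonal_succ']
  simp only [pow_zero, sub_self, mul_zero, zero_div, zero_add]
  refine sum_congr rfl fun x _ => ?_
  rw [poch_succ, ← mul_assoc, pow_succ' (q ^ 2), mul_div_mul_right _ _ (ne2 ne _)]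

theorem rs (N : ℕ) : ∑ x ∈ antidiagonal N,
    q ^ x.1 / (poch (q ^ 2) (q ^ 2) x.1 * poch (q ^ 2) (q ^ 2) x.2) = 1 / poch q q N := by
  induction N with
  | zero => simp [poch]
  | succ N ih =>
    have h1 := split ne N fun i => q ^ i
    have h2 := split ne N fun i => q ^ i
    rw [← Nat.sum_antidiagonal_swap] at h2
    rw [ih] at h1 h2
    have h3 := ne2 ne N
    have h4 : 1 / poch q q (N + 1) * (1 - q ^ 2 * (q ^ 2) ^ N)
        = 1 / poch q q N + q ^ (N + 1) * (1 / poch q q N) := by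
      have := ne N
      rw [poch_succ, ← pow_succ', show 1 - q ^ 2 * (q ^ 2) ^ N
        = (1 - q ^ (N + 1)) * (1 + q ^ (N + 1)) by ring, one_div, mul_inv, mul_assoc,
        inv_mul_cancel_left₀ this]
      ring
    apply mul_right_cancel₀ h3
    rw [h4]
    nth_rewrite 1 [← h1]
    rw [← h2, mul_sum, sum_mul, ← sum_add_distrib]
    refine sum_congr rfl fun x hx => ?_
    have := mem_antidiagonal.mp hx
    rw [← pow_succ' (q ^ 2), ← this]
    simp only [Prod.fst_swap, Prod.snd_swap]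
    ring

theorem lam (N : ℕ) : Ls q (N + 1) = poch q (q ^ 2) (N + 1) * ∑ x ∈ antidiagonal N,
    q ^ x.1 / (1 - q ^ (2 * x.1 + 1)) / (poch (q ^ 2) (q ^ 2) x.1 * poch (q ^ 2) (q ^ 2) x.2) := by
  induction N with
  | zero =>
    have : 1 - q ≠ 0 := by simpa using ne 0
    simp [Ls, cb, poch, this]
  | succ N ih =>
    have h2 := rs ne (N + 1)
    rw [← Nat.sum_antidiagonal_swap] at h2
    rw [Ls, sum_range_succ, ← Ls, ih, cb_eq ne, 
      ← split ne N fun i => q ^ i / (1 - q ^ (2 * i + 1)), poch_succ _ _ (N + 1),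
      div_eq_mul_one_div _ (poch q q (N + 1)), ← h2, mul_assoc, mul_assoc, ← mul_add, sum_mul,
      mul_sum, ← sum_add_distrib]
    congr 1
    refine sum_congr rfl fun x hx => ?_
    have := mem_antidiagonal.mp hx
    have h := mul_inv_cancel₀ (ne (2 * x.1))
    rw [← this]
    simp only [Prod.fst_swap, Prod.snd_swap, div_eq_mul_inv, mul_inv]
    linear_combination (-(q ^ x.1 * (q ^ 2) ^ x.2 * (poch (q ^ 2) (q ^ 2) x.1)⁻¹
      * (poch (q ^ 2) (q ^ 2) x.2)⁻¹)) * h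

include hq

theorem rec1 (N : ℕ) {x : K} (hx : x ≠ 0) : RR q x N = BB q x N - RR q (x * q ^ 2) N * x⁻¹ := by
  induction N with
  | zero => simp [RR, BB, poch]
  | succ N ih =>
    rw [RR, RR, sum_range_succ, sum_range_succ _ (N + 1), ← RR, ← RR, ih, BB, BB, poch_succ' x,
      poch_succ' (q ^ 2 / (x * q ^ 2)), poch_succ, poch_succ, poch_succ,
      show q ^ 2 / (x * q ^ 2) * q ^ 2 = q ^ 2 / x by field_simp, pow_succ' (q ^ 2)]
    have := PP ne N
    have := ne2 ne N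
    generalize (q ^ 2) ^ N = z at *
    field_simp
    ring

theorem rec2 (N J : ℕ) : RR q q N = ∑ j ∈ range J, (-1) ^ j / q ^ (j ^ 2) * BB q (q ^ (2 * j + 1)) N
    + (-1) ^ J / q ^ (J ^ 2) * RR q (q ^ (2 * J + 1)) N := by
  induction J with
  | zero => simp
  | succ J ih =>
    rw [ih, sum_range_succ, rec1 hq ne N (pow_ne_zero (2 * J + 1) hq),
      show q ^ (2 * J + 1) * q ^ 2 = q ^ (2 * (J + 1) + 1) by ring]
    field_simp
    ring

theorem rec3 (N j : ℕ) (h : j ≤ N) : RR q ((q ^ 2) ^ j)⁻¹ N = (-1) ^ j * q ^ (j * (j + 1)) := by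
  induction j with
  | zero =>
    rw [RR, sum_range_succ', sum_eq_zero fun k _ => by rw [poch_succ']; simp]
    simp [poch]
  | succ j ih =>
    have e : ((q ^ 2) ^ (j + 1))⁻¹ * q ^ 2 = ((q ^ 2) ^ j)⁻¹ := by field_simp; ring
    have z : poch ((q ^ 2) ^ j)⁻¹ (q ^ 2) N = 0 := prod_eq_zero (mem_range.mpr h)
      (by rw [inv_mul_cancel₀ (by positivity), sub_self])
    rw [rec1 hq ne N (by positivity), BB, e, z, ih (by omega), inv_inv]
    ring

end

variable [CharZero K] {L : Loc K} {h : ℕ} (hn : L.n = 2 * h + 1) {x y c s : K}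

theorem poch_TG {a : K} (ha : a ∈ L.O) (k : ℕ) : L.TG fun y => poch (y * a) (L.q ^ 2) k :=
  TG.prod _ fun i _ => (TG.const (one_mem _)).sub
    ((TG.id.mul (TG.const ha)).mul (TG.const (pow_mem (L.qp 2) i)))

theorem poch_near {a : K} (ha : a ∈ L.O) (k : ℕ) (hu : L.U (poch a (L.q ^ 2) k)) (hy : Nr L y c) :
    L.E 1 (poch (y * a) (L.q ^ 2) k / poch a (L.q ^ 2) k) 1 := by
  have := (((poch_TG ha k).near hy.1 hy.2).smul hu.2.1)
  rwa [one_mul, inv_mul_cancel₀ hu.2.2, inv_mul_eq_div] at this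

def aa (q : K) (i : ℕ) : K := (1 - q ^ (2 * i + 2))⁻¹

include hn

theorem U1 {i : ℕ} (hi : i < 2 * h) : ¬ L.n ∣ 2 * i + 2 := by
  simpa using nd1 hn (hs1 hn) (i := i) (by omega)
theorem U2 {i : ℕ} (hi : i < h) : ¬ L.n ∣ 2 * i + 1 := by
  simpa using nd2 hn (hs1 hn) (i := 2 * i) (by omega)
theorem UP {k : ℕ} (hk : k ≤ 2 * h) : L.U (poch (L.q ^ 2) (L.q ^ 2) k) :=
  U.prod _ _ fun i hi => by
    rw [show L.q ^ 2 * (L.q ^ 2) ^ i = L.q ^ (2 * i + 2) by ring]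
    exact U.sub (U1 hn (by have := mem_range.mp hi; omega))
theorem UO {k : ℕ} (hk : k ≤ h) : L.U (poch L.q (L.q ^ 2) k) :=
  U.prod _ _ fun i hi => by
    rw [show L.q * (L.q ^ 2) ^ i = L.q ^ (2 * i + 1) by ring]
    exact U.sub (U2 hn (by have := mem_range.mp hi; omega))

theorem pair {k : ℕ} (hk : k ≤ 2 * h) (hx : Nr L x c) :
    N3 L (poch (x * L.q ^ 2) (L.q ^ 2) k * poch (L.q ^ 2 / x) (L.q ^ 2) k
      / poch (L.q ^ 2) (L.q ^ 2) k ^ 2) 0
        (-(c ^ 2 * ∑ i ∈ range k, aa L.q i * (aa L.q i - 1))) := by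
  induction k with
  | zero => exact N3.one.congr (by simp [poch]) rfl (by simp)
  | succ k ih =>
    refine ((ih (by omega)).mul (pair_lin Nr.one hx (U1 hn (i := k) (by omega)))).congr ?_
      (by simp) ?_
    · rw [poch_succ, poch_succ, poch_succ, div_mul_div_comm]
      congr 1 <;> ring
    · have := L.ne (2 * k + 2) (by omega)
      rw [sum_range_succ, aa]
      field_simp
      ring

theorem expand (hx : N3 L x c s) : L.E 3 (RR L.q x (2 * h))
    (1 + L.e * (h * c) + L.e ^ 2 * (h * (s - c ^ 2 / 2)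
      - 2 * (c + c ^ 2) * ∑ i ∈ range h, aa L.q i * (aa L.q i - 1))) := by
  have ma : ∀ i, i < 2 * h → aa L.q i ∈ L.O := fun i hi => (U.sub (U1 hn hi)).2.1
  have x0 := hx.nr.U.2.2
  have z1 : L.E 1 (1 - x) 0 := hx.nr.near.neg.of_sub (by ring)
  have z2 : L.E 3 ((1 - x) * (1 - x⁻¹)) (L.e ^ 2 * -c ^ 2) :=
    (hx.2.2.add hx.inv.2.2).neg.of_sub (by field_simp; ring)
  have z3 : L.E 2 ((1 - x) * (1 - x⁻¹)) 0 :=
    (z2.mono (by norm_num)).trans (E.sq (neg_mem (pow_mem hx.1 2)))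
  have k1 : L.E 3 (RR L.q x (2 * h)) (∑ i ∈ range (h + h), ((1 - x) * (aa L.q i - 1)
      + (1 - x) * (1 - x⁻¹) * (aa L.q i - 1) ^ 2) + 1) := by
    rw [RR, sum_range_succ', two_mul]
    refine (E.sum _ fun i hi => ?_).add (E.of_eq (by simp [poch]))
    have hi' : i < 2 * h := by have := mem_range.mp hi; omega
    have m1 := sub_mem (ma i hi') (one_mem _)
    refine (((pair hn hi'.le hx.nr).nr.2.mul_zero z1).smul (add_mem m1
      (mul_mem (sub_mem (one_mem _) hx.nr.U.2.1) (pow_mem m1 2)))).of_sub ?_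
    have := L.ne (2 * i + 2) (by omega)
    have := (UP hn hi'.le).2.2
    rw [poch_succ' x, poch_succ, poch_succ, aa, pow_succ' (L.q ^ 2), div_mul_eq_mul_div (L.q ^ 2),
      show L.q ^ 2 * (L.q ^ 2) ^ i = L.q ^ (2 * i + 2) by ring]
    generalize poch (L.q ^ 2 / x) (L.q ^ 2) i = A
    field_simp
    ring
  rw [sum_range_add, ← sum_range_reflect (fun i => (1 - x) * (aa L.q (h + i) - 1)
    + (1 - x) * (1 - x⁻¹) * (aa L.q (h + i) - 1) ^ 2), ← sum_add_distrib] at k1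
  refine k1.trans (((E.sum (range h) (g := fun i => L.e * c + L.e ^ 2 * (s - c ^ 2 / 2
    - 2 * (c + c ^ 2) * (aa L.q i * (aa L.q i - 1)))) fun i hi => ?_).add (E.refl 1)).trans
      (E.of_eq ?_))
  swap
  · rw [sum_add_distrib (f := fun _ => L.e * c), ← mul_sum, ← mul_sum, sum_sub_distrib, ← mul_sum]
    simp only [sum_const, card_range, nsmul_eq_mul]
    ring
  have hi' := mem_range.mp hi
  have m1 := ma i (by omega)
  have m2 := ma (h + (h - 1 - i)) (by omega)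
  have e : aa L.q i + aa L.q (h + (h - 1 - i)) - 1
      = -(L.e * (2 + L.e)) * (aa L.q i * aa L.q (h + (h - 1 - i))) := by
    have := L.ne (2 * i + 2) (by omega)
    have := L.ne (2 * (h + (h - 1 - i)) + 2) (by omega)
    have e : L.q ^ (2 * i + 2) * L.q ^ (2 * (h + (h - 1 - i)) + 2) = (L.q ^ L.n) ^ 2 := by
      rw [← pow_add, ← pow_mul]; congr 1; omega
    unfold aa Loc.e
    field_simp
    linear_combination -e
  generalize aa L.q i = a at *
  generalize aa L.q (h + (h - 1 - i)) = a' at *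
  have m3 := add_mem (L.nat_mem 2) L.e_mem
  have f1 : L.E 1 a' (1 - a) :=
    (E.e_zero (neg_mem (mul_mem m3 (mul_mem m1 m2)))).of_sub (by push_cast; linear_combination e)
  have f2 : L.E 2 (a + a' - 2) (2 * L.e * (a * (a - 1)) - 1) :=
    ((f1.smul (neg_mem (mul_mem m3 m1))).e_mul.add (E.sq (mul_mem m1 (sub_mem m1 (one_mem _))))).of_sub
      (by push_cast; linear_combination e)
  have f3 : L.E 1 ((a - 1) ^ 2 + (a' - 1) ^ 2) (1 + 2 * (a * (a - 1))) :=
    (f1.smul (sub_mem (sub_mem m2 m1) (one_mem _))).of_sub (by ring)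
  have m4 := mul_mem m1 (sub_mem m1 (one_mem _))
  have m5 := add_mem (one_mem _) (mul_mem (L.nat_mem 2) m4)
  have m6 := sub_mem (mul_mem (mul_mem (L.nat_mem 2) L.e_mem) m4) (one_mem _)
  exact (((((f2.mul_zero z1).add (f3.mul_zero z3)).add (z2.smul m5)).sub (hx.2.2.smul m6)).sub
    (cube (mul_mem (mul_mem (L.nat_mem 2) m4) (add_mem (half (pow_mem hx.1 2)) hx.2.1)))).of_sub
      (by push_cast; ring)

theorem middle : L.E 3 (RR L.q (L.q ^ L.n) (2 * h)) ((L.q ^ L.n) ^ h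
    * (poch (L.q ^ L.n * L.q ^ 2) (L.q ^ 2) h * poch (L.q ^ 2 / L.q ^ L.n) (L.q ^ 2) h
      / poch (L.q ^ 2) (L.q ^ 2) h ^ 2)) := by
  have q0 := L.q0
  have Q := N3.qn (L := L)
  have k1 := expand hn Q
  have k2 := expand hn (Q.pow 2)
  have k3 : RR L.q ((L.q ^ L.n) ^ 2) (2 * h) = (L.q ^ L.n) ^ (2 * h) := by
    have := rec3 q0 (fun j => L.ne (j + 1) (by omega)) (2 * h) (2 * h) le_rfl
    rw [(even_two_mul h).neg_one_pow, one_mul, ← hn, mul_comm (2 * h) L.n, pow_mul L.q L.n] at this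
    rw [← this, RR, RR, show L.q ^ 2 / (L.q ^ L.n) ^ 2 = ((L.q ^ 2) ^ (2 * h))⁻¹ by
      rw [hn]; field_simp; ring, show L.q ^ 2 / ((L.q ^ 2) ^ (2 * h))⁻¹ = (L.q ^ L.n) ^ 2 by
        rw [hn]; field_simp; ring]
    exact sum_congr rfl fun _ _ => by ring
  rw [k3] at k2
  have k4 := ((Q.pow h).mul (pair hn (k := h) (by omega) Q.nr)).2.2
  refine ((k1.sub k4).sub ((k2.sub (Q.pow (2 * h)).2.2).smul (L.rat (1 / 4)))).of_sub ?_
  push_cast
  ring

theorem binom (j : ℕ) : ∀ d, j + d = 2 * h → L.E 1 ((-1) ^ j * L.q ^ (j * (j + 1))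
    * poch (L.q ^ 2) (L.q ^ 2) (2 * h) / (poch (L.q ^ 2) (L.q ^ 2) j * poch (L.q ^ 2) (L.q ^ 2) d))
      1 := by
  induction j with
  | zero =>
    intro d hd
    obtain rfl : d = 2 * h := by omega
    have := (UP hn le_rfl).2.2
    exact E.of_eq (by rw [show poch (L.q ^ 2) (L.q ^ 2) 0 = 1 from rfl]; simp [this])
  | succ j ih =>
    intro d hd
    have u := U.sub (U1 hn (i := j) (by omega))
    have h1 : L.E 1 (((L.q ^ L.n) ^ 2 - L.q ^ (2 * j + 2)) / (1 - L.q ^ (2 * j + 2))) 1 :=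
      ((Nr.qn 2).near.smul u.2.1).of_sub (by have := u.2.2; field_simp; ring)
    refine ((ih (d + 1) (by omega)).mul h1 (one_mem _) (one_mem _)).of_sub ?_
    have := u.2.2
    have := (UP hn (k := j) (by omega)).2.2
    have := (UP hn (k := d) (by omega)).2.2
    have := L.ne (2 * d + 2) (by omega)
    rw [poch_succ, poch_succ, show L.q ^ 2 * (L.q ^ 2) ^ j = L.q ^ (2 * j + 2) by ring,
      show L.q ^ 2 * (L.q ^ 2) ^ d = L.q ^ (2 * d + 2) by ring, show L.n = j + d + 2 by omega]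
    field_simp
    ring

theorem main : L.E 3 (Ls L.q L.n) (Rs L.q L.n) := by
  have q0 := L.q0
  have ne : ∀ j, 1 - L.q ^ (j + 1) ≠ 0 := fun j => L.ne (j + 1) (by omega)
  have Q := (N3.qn (L := L)).nr
  have e0 : Rs L.q L.n = RR L.q L.q (2 * h) := by
    rw [Rs, RR, hn, show L.q ^ 2 / L.q = L.q by field_simp]
    exact sum_congr rfl fun _ _ => by ring
  have e1 : poch L.q (L.q ^ 2) L.n = poch L.q (L.q ^ 2) h
      * poch (L.q ^ L.n * L.q ^ 2) (L.q ^ 2) h * (1 - L.q ^ L.n) := by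
    nth_rewrite 1 [show L.n = h + (h + 1) by omega]
    rw [poch_add, poch_succ', show L.q * (L.q ^ 2) ^ h = L.q ^ L.n by rw [hn]; ring]
    ring
  have e2 : poch (L.q ^ 2) (L.q ^ 2) (2 * h) = poch (L.q ^ L.n * L.q) (L.q ^ 2) h
      * poch (L.q ^ 2) (L.q ^ 2) h := by
    rw [two_mul, poch_add, mul_comm, hn]; congr 2; ring
  have e3 : L.q ^ (h * (h + 1)) * poch L.q (L.q ^ 2) h
      = (-1) ^ h * (L.q ^ L.n) ^ h * poch (L.q ^ 2 / L.q ^ L.n) (L.q ^ 2) h := by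
    have e : ∀ h : ℕ, L.q ^ (h * (h + 1)) = ∏ i ∈ range h, L.q ^ (2 * i + 2) := by
      intro h
      induction h with
      | zero => simp
      | succ h ih => rw [prod_range_succ, ← ih]; ring
    rw [e, poch, poch, ← prod_range_reflect (fun i => 1 - L.q * (L.q ^ 2) ^ i), ← mul_pow,
      ← card_range h, ← prod_const, card_range, ← prod_mul_distrib, ← prod_mul_distrib]
    refine prod_congr rfl fun i hi => ?_
    have := mem_range.mp hi
    rw [show L.n = 2 * (h - 1 - i) + 1 + (2 * i + 2) by omega]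
    field_simp
    ring
  have V : L.E 1 (poch L.q (L.q ^ 2) h * poch (L.q ^ L.n * L.q ^ 2) (L.q ^ 2) h
      / poch (L.q ^ 2) (L.q ^ 2) (2 * h)) 1 := by
    refine ((poch_near (L.qp 2) h (UP hn (by omega)) Q).div
      (poch_near L.hq h (UO hn le_rfl) Q) (one_mem _) U.one).of_sub ?_
    rw [e2]
    simp only [div_eq_mul_inv, mul_inv, inv_inv]
    ring
  have k0 := lam ne (2 * h)
  rw [Nat.sum_antidiagonal_eq_sum_range_succ_mk, show (2 * h).succ = h + 1 + h by omega,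
    sum_range_add, sum_range_succ, ← sum_range_reflect (fun i => L.q ^ (h + 1 + i)
      / (1 - L.q ^ (2 * (h + 1 + i) + 1)) / (poch (L.q ^ 2) (L.q ^ 2) (h + 1 + i)
        * poch (L.q ^ 2) (L.q ^ 2) (2 * h - (h + 1 + i)))), add_right_comm, ← sum_add_distrib,
    mul_add, mul_sum, ← hn, show 2 * h - h = h by omega] at k0
  dsimp only at k0
  rw [e0, rec2 q0 ne (2 * h) h, k0, ← hn]
  refine (E.sum _ fun j hj => ?_).add (((middle hn).smul (div_mem'
    (pow_mem (neg_mem (one_mem _)) h) (U.q.pow (h ^ 2)))).symm.of_sub ?_)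
  swap
  · have := L.ne L.n (by omega)
    have := (UP hn (k := h) (by omega)).2.2
    have h2 : (-1 : K) ^ h * (-1) ^ h = 1 := by rw [← pow_add, (Even.add_self h).neg_one_pow]
    rw [e1, (eq_inv_mul_iff_mul_eq₀ (pow_ne_zero _ q0)).mpr e3]
    generalize poch (L.q ^ 2 / L.q ^ L.n) (L.q ^ 2) h = A
    field_simp
    ring
  have hj' := mem_range.mp hj
  obtain ⟨d, hd⟩ : ∃ d, j + d = 2 * h := ⟨2 * h - j, by omega⟩
  rw [show h + 1 + (h - 1 - j) = d by omega, show 2 * h - j = d by omega,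
    show 2 * h - d = j by omega]
  have u := U.sub (U2 hn hj')
  have uq := U.q.pow (L := L) (2 * j + 1)
  have u3 : L.U (poch (L.q ^ (2 * j + 1))⁻¹ (L.q ^ 2) (j + 1)) := U.prod _ _ fun i hi => by
    obtain ⟨t, rfl⟩ : ∃ t, j = i + t := ⟨j - i, by have := mem_range.mp hi; omega⟩
    rw [show 1 - (L.q ^ (2 * (i + t) + 1))⁻¹ * (L.q ^ 2) ^ i
      = -((1 - L.q ^ (2 * t + 1)) / L.q ^ (2 * t + 1)) by field_simp; ring]
    exact ((U.sub (U2 hn (by omega))).div (U.q.pow _)).neg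
  have x1 := poch_near L.hq j (UO hn hj'.le) (Nr.qn 2)
  have x2 := poch_near uq.2.1 (j + 1) u3 (Nr.qn 2)
  have f1 : poch L.q (L.q ^ 2) j * ((1 - L.q ^ (2 * j + 1))
      * poch (L.q ^ (2 * j + 1) * L.q ^ 2) (L.q ^ 2) (2 * h))
      = poch L.q (L.q ^ 2) L.n * poch ((L.q ^ L.n) ^ 2 * L.q) (L.q ^ 2) j := by
    rw [← poch_succ', ← hn, show L.q ^ (2 * j + 1) = L.q * (L.q ^ 2) ^ j by ring, ← poch_add,
      add_comm, poch_add]
    congr 2; ring
  have f2 : (1 - (L.q ^ (2 * j + 1))⁻¹) * poch (L.q ^ 2 / L.q ^ (2 * j + 1)) (L.q ^ 2) (2 * h)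
      * poch ((L.q ^ L.n) ^ 2 * (L.q ^ (2 * j + 1))⁻¹) (L.q ^ 2) (j + 1)
      = poch (L.q ^ (2 * j + 1))⁻¹ (L.q ^ 2) (j + 1) * poch L.q (L.q ^ 2) L.n := by
    rw [div_eq_inv_mul, ← poch_succ', ← hn, show (L.q ^ L.n) ^ 2 * (L.q ^ (2 * j + 1))⁻¹
      = (L.q ^ (2 * j + 1))⁻¹ * (L.q ^ 2) ^ L.n by ring, ← poch_add, add_comm L.n, poch_add]
    rw [show (L.q ^ (2 * j + 1))⁻¹ * (L.q ^ 2) ^ (j + 1) = L.q by field_simp; ring]
  have m1 := add_mem (one_mem _) uq.1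
  have y1 : L.E 1 (1 + (L.q ^ L.n)⁻¹ * L.q ^ (2 * j + 1)) (1 + L.q ^ (2 * j + 1)) :=
    (Q.inv.near.smul uq.1).of_sub (by ring)
  have y2 : L.E 1 (1 - ((L.q ^ L.n) ^ 2)⁻¹ * L.q ^ (2 * j + 1)) (1 - L.q ^ (2 * j + 1)) :=
    ((Nr.qn 2).inv.near.smul uq.1).neg.of_sub (by ring)
  have l1 := ((V.mul (binom hn j d hd) (one_mem _) (one_mem _)).mul Q.inv.near
    (mul_mem (one_mem _) (one_mem _)) (one_mem _)).mul (y1.div y2 m1 u)
      (mul_mem (mul_mem (one_mem _) (one_mem _)) (one_mem _)) (div_mem' m1 u)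
  have r1 := (((V.pow (one_mem _) 2).mul (x1.div x2 (one_mem _) U.one) (pow_mem (one_mem _) 2)
    (div_mem' (one_mem _) U.one)).smul (div_mem' m1 u))
  refine ((l1.sub r1).e_mul.e_mul.smul (neg_mem (div_mem' (div_mem'
    (pow_mem (neg_mem (one_mem _)) j) (U.q.pow (j ^ 2))) u))).of_sub ?_
  have g1 := (UO hn hj'.le).2.2
  have g2 := u.2.2
  have g3 := u3.2.2
  have g4 := (x2.unit U.one).2.2
  have g5 := (y2.unit u).2.2
  have g6 := (UP hn le_rfl).2.2
  have g7 := (UP hn (k := j) (by omega)).2.2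
  have g8 := (UP hn (k := d) (by omega)).2.2
  have g9 : 1 - (L.q ^ (2 * j + 1))⁻¹ ≠ 0 := fun h => g2 (by field_simp at h; linear_combination -h)
  rw [div_ne_zero_iff] at g4
  rw [← mul_assoc, mul_comm, ← eq_div_iff (mul_ne_zero g1 g2)] at f1
  rw [mul_right_comm, mul_comm, ← eq_div_iff (mul_ne_zero g9 g4.1)] at f2
  have f3 : L.q ^ d / (1 - L.q ^ (2 * d + 1)) = -(L.q ^ j * (L.q ^ L.n)⁻¹
      / (1 - ((L.q ^ L.n) ^ 2)⁻¹ * L.q ^ (2 * j + 1))) := by
    rw [← neg_div, div_eq_div_iff (ne _) g5, show L.n = j + d + 1 by omega]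
    field_simp
    ring
  have h2 : (-1 : K) ^ j * (-1) ^ j = 1 := by rw [← pow_add, (Even.add_self j).neg_one_pow]
  rw [BB, f1, f2, f3, e1, show 1 - L.q ^ L.n = -L.e by unfold e; ring,
    show 1 - (L.q ^ (2 * j + 1))⁻¹ = -((1 - L.q ^ (2 * j + 1)) / L.q ^ (2 * j + 1)) by
      field_simp; ring, show L.q ^ (j * (j + 1)) = L.q ^ (j ^ 2) * L.q ^ j by ring]
  have f4 : L.q ^ L.n = 1 + L.e := by unfold e; ring
  have g0 := Q.U.2.2
  generalize poch ((L.q ^ L.n) ^ 2 * (L.q ^ (2 * j + 1))⁻¹) (L.q ^ 2) (j + 1) = A1 at *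
  generalize poch (L.q ^ (2 * j + 1))⁻¹ (L.q ^ 2) (j + 1) = A2 at *
  generalize poch ((L.q ^ L.n) ^ 2 * L.q) (L.q ^ 2) j = A3 at *
  generalize poch (L.q ^ L.n * L.q ^ 2) (L.q ^ 2) h = A4 at *
  generalize poch L.q (L.q ^ 2) = A5 at *
  generalize poch (L.q ^ 2) (L.q ^ 2) = A6 at *
  have g10 : (L.q ^ L.n) ^ 2 - L.q ^ (2 * j + 1) ≠ 0 := fun h =>
    g5 (by field_simp; linear_combination h)
  have g11 := uq.2.2
  have g12 : L.q ^ (j ^ 2) ≠ 0 := pow_ne_zero _ q0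
  generalize L.q ^ (2 * j + 1) = u at *
  generalize L.q ^ (j ^ 2) = v at *
  generalize L.q ^ j = w at *
  rcases neg_one_pow_eq_or K j with h | h <;> rw [h] <;> rw [f4] at * <;> field_simp <;> ring

omit hn in
theorem result (n : ℕ) (hn : Odd n) : Cong n (Ls RatFunc.X n) (Rs RatFunc.X n) := by
  obtain ⟨h, hn⟩ := hn
  exact cyc_out' (by omega) (main (L := cycL n (by omega)) hn)

end Pool.Agent.Results.MP_781342_nt.Cube
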